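import Pool.Agent.Zk12.GT.Stm
import Pool.Agent.Zk95.FG.Kum
import Pool.Agent.N890.KO.All

/-!
# Part S of project GT: the symbols of the classes of `x - β` along a section
-/

set_option autoImplicit false
set_option linter.all false

namespace Pool.Agent.Zk47.GT

open Pool.Agent.TH954 Pool.Agent.Zk12.FG Pool.Agent.Zk12.GT Pool.Agent.N890.KO IntermediateField

section quad

variable {k B : Type} [Field k] [CharZero k] [Field B] [Algebra k B] [IsAlgClosure k B]

/-- the elements of a quadratic extension -/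
theorem mem_quad {A : k} {α : B} (hα : α ^ 2 = algebraMap k B A) {z : B} (hz : z ∈ k⟮α⟯) :
    ∃ u v : k, z = algebraMap k B u + algebraMap k B v * α := by
  haveI : Algebra.IsAlgebraic k B := IsAlgClosure.isAlgebraic
  have h1 : z ∈ Algebra.adjoin k {α} := by
    rw [← IntermediateField.adjoin_simple_toSubalgebra_of_isAlgebraic
      (Algebra.IsAlgebraic.isAlgebraic α)]
    exact hz
  clear hz
  induction h1 using Algebra.adjoin_induction with
  | mem x hx =>
    rw [Set.mem_singleton_iff] at hx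
    exact ⟨0, 1, by rw [hx]; simp⟩
  | algebraMap r => exact ⟨r, 0, by simp⟩
  | add x y _ _ hx hy =>
    obtain ⟨u, v, rfl⟩ := hx
    obtain ⟨u', v', rfl⟩ := hy
    exact ⟨u + u', v + v', by simp only [map_add]; ring⟩
  | mul x y _ _ hx hy =>
    obtain ⟨u, v, rfl⟩ := hx
    obtain ⟨u', v', rfl⟩ := hy
    exact ⟨u * u' + A * (v * v'), u * v' + u' * v, by
      simp only [map_add, map_mul]
      rw [← hα]
      ring⟩

theorem auto_quad {A : k} {α : B} (hα : α ^ 2 = algebraMap k B A) (τ : B ≃ₐ[k] B) :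
    τ α = α ∨ τ α = -α := by
  apply sq_eq_sq_iff_eq_or_eq_neg.1
  rw [← map_pow, hα, AlgEquiv.commutes]

theorem cyc_quad {A : k} (hA : ¬ IsSquare A) {α : B} (hα : α ^ 2 = algebraMap k B A) :
    ∃ σ : B ≃ₐ[k] B, σ α = -α ∧ Cyc k⟮α⟯ σ 2 := by
  haveI : Algebra.IsAlgebraic k B := IsAlgClosure.isAlgebraic
  haveI : Normal k B := IsAlgClosure.normal k B
  haveI : IsGalois k B := ⟨⟩
  have hα0 : α ≠ 0 := by
    rintro rfl
    apply hA
    have : algebraMap k B A = 0 := by rw [← hα]; simp
    rw [(_root_.map_eq_zero _).1 this]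
    exact ⟨0, by simp⟩
  haveI : CharZero B := charZero_of_injective_algebraMap (algebraMap k B).injective
  obtain ⟨σ, hσ⟩ : ∃ σ : B ≃ₐ[k] B, σ α = -α := by
    by_contra hno
    push Not at hno
    apply hA
    have h1 : α ∈ (⊥ : IntermediateField k B) := by
      apply Pool.Agent.W620.SC.mem_of_fixed
      intro τ _
      exact (auto_quad hα τ).resolve_right (hno τ)
    obtain ⟨r, hr⟩ := IntermediateField.mem_bot.1 h1
    refine ⟨r, ?_⟩
    apply (algebraMap k B).injective
    rw [map_mul, hr, ← hα, sq]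
  have hin : ∀ u v : k, algebraMap k B u + algebraMap k B v * α ∈ k⟮α⟯ := fun u v =>
    add_mem (k⟮α⟯.algebraMap_mem u) (mul_mem (k⟮α⟯.algebraMap_mem v)
      (IntermediateField.mem_adjoin_simple_self k α))
  refine ⟨σ, hσ, ⟨?_, by norm_num, ?_, ?_, ?_, ?_⟩⟩
  · exact IntermediateField.adjoin.finiteDimensional (Algebra.IsIntegral.isIntegral α)
  · intro τ x hx
    obtain ⟨u, v, rfl⟩ := mem_quad hα hx
    rw [map_add, map_mul, AlgEquiv.commutes, AlgEquiv.commutes]
    rcases auto_quad hα τ with h | h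
    · rw [h]; exact hin u v
    · rw [h]
      have := hin u (-v)
      rwa [map_neg, neg_mul, ← mul_neg] at this
  · intro x hx
    obtain ⟨u, v, rfl⟩ := mem_quad hα hx
    rw [sq, AlgEquiv.mul_apply]
    simp only [map_add, map_mul, AlgEquiv.commutes, hσ, map_neg, neg_neg]
  · intro i hi hfix
    by_contra h0
    have h1 : i = 1 := by omega
    subst h1
    have h2 := hfix α (IntermediateField.mem_adjoin_simple_self k α)
    rw [pow_one, hσ] at h2
    exact hα0 (self_eq_neg.1 h2.symm)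
  · intro τ
    rcases auto_quad hα τ with h | h
    · refine ⟨0, by norm_num, fun x hx => ?_⟩
      obtain ⟨u, v, rfl⟩ := mem_quad hα hx
      rw [pow_zero]
      simp only [map_add, map_mul, AlgEquiv.commutes, h, AlgEquiv.one_apply]
    · refine ⟨1, by norm_num, fun x hx => ?_⟩
      obtain ⟨u, v, rfl⟩ := mem_quad hα hx
      rw [pow_one]
      simp only [map_add, map_mul, AlgEquiv.commutes, h, hσ]

end quad

theorem sym : S_SYM := by
  intro k F Ω B _ _ _ _ _ _ _ _ _ _ _ _ s x hx
  haveI : IsAlgClosed Ω := IsAlgClosure.isAlgClosed F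
  haveI : Algebra.IsAlgebraic F Ω := IsAlgClosure.isAlgebraic
  haveI : Algebra.IsAlgebraic k B := IsAlgClosure.isAlgebraic
  haveI : IsAlgClosed B := IsAlgClosure.isAlgClosed k
  have hx0 : ∀ β : k, x - algebraMap k F β ≠ 0 := fun β h => hx β (sub_eq_zero.1 h)
  -- the classes
  have h1 : ∀ β : k, ∃ (c : k) (w : Ω), c ≠ 0 ∧ (∀ g, s.s g w = w) ∧
      algebraMap F Ω (x - algebraMap k F β) = algebraMap k Ω c * w ^ 2 := by
    intro β
    obtain ⟨h, hh⟩ := IsAlgClosed.exists_pow_nat_eq (algebraMap F Ω (x - algebraMap k F β))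
      (n := 2) (by norm_num)
    have h0 : h ≠ 0 := by
      rintro rfl
      have : algebraMap F Ω (x - algebraMap k F β) = 0 := by rw [← hh]; simp
      exact hx0 β ((_root_.map_eq_zero _).1 this)
    obtain ⟨c, w, hc, hw, e⟩ := Pool.Agent.Zk95.FG.kummer s h0 (n := 2) (by norm_num) (by
      intro g
      rw [hh, AlgEquiv.commutes])
    exact ⟨c, w, hc, hw, hh ▸ e⟩
  choose c b hc hb hcb using h1
  refine ⟨c, hc, fun β => ⟨b β, hb β, hcb β⟩, ?_⟩
  intro β γ hne
  have hγβ : γ - β ≠ 0 := sub_ne_zero.2 hne.symm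
  have hβγ : β - γ ≠ 0 := sub_ne_zero.2 hne
  set A : k := c β / (γ - β) with hAdef
  set C : k := c γ / (β - γ) with hCdef
  have hC0 : C ≠ 0 := div_ne_zero (hc γ) hβγ
  have hA0 : A ≠ 0 := div_ne_zero (hc β) hγβ
  have hrel : algebraMap k Ω A * b β ^ 2 + algebraMap k Ω C * b γ ^ 2 = 1 := by
    have h1 : algebraMap k Ω A * b β ^ 2 =
        algebraMap F Ω (x - algebraMap k F β) / algebraMap k Ω (γ - β) := by
      rw [hcb β, hAdef, map_div₀]; ring
    have h2 : algebraMap k Ω C * b γ ^ 2 =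
        algebraMap F Ω (x - algebraMap k F γ) / algebraMap k Ω (β - γ) := by
      rw [hcb γ, hCdef, map_div₀]; ring
    have h3 : algebraMap k Ω (γ - β) ≠ 0 := (_root_.map_ne_zero _).2 hγβ
    have h4 : algebraMap k Ω (β - γ) = -algebraMap k Ω (γ - β) := by
      rw [← map_neg, neg_sub]
    rw [h1, h2, h4, div_neg, ← sub_eq_add_neg, ← sub_div, ← map_sub, div_eq_one_iff_eq h3,
      IsScalarTower.algebraMap_apply k F Ω]
    congr 1
    rw [map_sub]
    ring
  by_cases hsq : IsSquare A
  · obtain ⟨r, hr⟩ := hsq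
    exact ⟨r, 1, 0, Or.inr (Or.inl one_ne_zero), by rw [hr]; ring⟩
  obtain ⟨α, hα⟩ := IsAlgClosed.exists_pow_nat_eq (algebraMap k B A) (n := 2) (by norm_num)
  obtain ⟨σ, hσ, hcyc⟩ := cyc_quad hsq hα
  -- the action
  obtain ⟨ra, hra⟩ : ∃ ra : (B ≃ₐ[k] B) →* (Ω ≃+* Ω), ∀ g z, ra g z = s.s g z :=
    ⟨{ toFun := fun g => (s.s g).toRingEquiv
       map_one' := by
        apply RingEquiv.ext
        intro z
        change s.s 1 z = z
        rw [map_one]; rfl
       map_mul' := fun g g' => by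
        apply RingEquiv.ext
        intro z
        change s.s (g * g') z = s.s g (s.s g' z)
        rw [map_mul]; rfl }, fun g z => rfl⟩
  have hact : Act (s.j : B →+* Ω) ra := by
    refine ⟨fun τ y => by rw [hra]; exact s.sec τ y, fun y => ?_⟩
    have h1 : {g : B ≃ₐ[k] B | s.s g y = y} ∈ nhds (1 : B ≃ₐ[k] B) := by
      have h2 := s.cont.continuousAt (x := 1)
      rw [ContinuousAt, map_one] at h2
      exact h2 (Pool.Agent.TH954.fix_nhds y)
    rw [krullTopology_mem_nhds_one_iff] at h1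
    obtain ⟨E, hE, hEh⟩ := h1
    refine ⟨E, hE, fun τ hτ => ?_⟩
    rw [hra]
    apply hEh
    intro z
    exact hτ z z.2
  have hbγ : b γ ≠ 0 := by
    intro h0
    have := hcb γ
    rw [h0] at this
    simp only [ne_eq, OfNat.ofNat_ne_zero, not_false_eq_true, zero_pow, mul_zero] at this
    exact hx0 γ ((_root_.map_eq_zero _).1 this)
  have hjα : s.j α ^ 2 = algebraMap k Ω A := by
    rw [← map_pow, hα, AlgHom.commutes]
  obtain ⟨z, hz, hzn⟩ := s_SPLIT k B Ω (s.j : B →+* Ω) ra hact k⟮α⟯ σ 2 hcyc C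
    ((1 - s.j α * b β) / b γ) hC0 (by
      intro τ
      change ra (τ.restrictScalars k) _ = _
      rw [hra, map_div₀, map_sub, map_mul, map_one, hb, hb, s.sec]
      congr 4
      exact τ.commutes (⟨α, IntermediateField.mem_adjoin_simple_self k α⟩ : k⟮α⟯)) (by
      rw [Finset.prod_range_succ, Finset.prod_range_one, pow_zero, pow_one, hra, hra, map_one,
        AlgEquiv.one_apply, map_div₀, map_sub, map_mul, map_one, hb, hb, s.sec, hσ, map_neg,
        div_mul_div_comm, ← sq]
      change _ = s.j (algebraMap k B C)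
      rw [AlgHom.commutes, div_eq_iff (pow_ne_zero 2 hbγ)]
      linear_combination (-(b β) ^ 2) * hjα - hrel)
  obtain ⟨u, v, rfl⟩ := mem_quad hα hz
  refine ⟨u, v, 1, Or.inr (Or.inr one_ne_zero), ?_⟩
  rw [Finset.prod_range_succ, Finset.prod_range_one, pow_zero, pow_one, AlgEquiv.one_apply] at hzn
  simp only [map_add, map_mul, AlgEquiv.commutes, hσ] at hzn
  apply (algebraMap k B).injective
  simp only [map_add, map_mul, map_pow, map_one]
  linear_combination hzn + (algebraMap k B v) ^ 2 * hα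

end Pool.Agent.Zk47.GT
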